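import Pool.Agent.Helper23.MV.StC

set_option autoImplicit false

namespace Pool.Agent.Helper88.MV

open Finset MeasureTheory
open Pool.Agent.Helper48.BK (ex)
open Pool.Agent.Helper23.MV

private theorem ex_norm_GAL (t : ℝ) : ‖ex t‖ = 1 := by
  unfold ex
  have : (2 * (Real.pi : ℂ) * (t : ℂ) * Complex.I) = ((2 * Real.pi * t : ℝ) : ℂ) * Complex.I := by
    push_cast; ring
  rw [this]
  exact Complex.norm_exp_ofReal_mul_I _

private theorem ex_add_GAL (s t : ℝ) : ex (s + t) = ex s * ex t := by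
  unfold ex
  rw [← Complex.exp_add]
  congr 1
  push_cast
  ring

private theorem ex_conj_GAL (t : ℝ) : (starRingEnd ℂ) (ex t) = ex (-t) := by
  unfold ex
  rw [← Complex.exp_conj]
  congr 1
  simp only [map_mul, Complex.conj_ofReal, Complex.conj_I, map_ofNat]
  push_cast
  ring

private theorem ex_pow_GAL (n : ℕ) (t : ℝ) : ex (n * t) = ex t ^ n := by
  unfold ex
  rw [← Complex.exp_nat_mul]
  congr 1
  push_cast
  ring

private theorem ex_sub_GAL (t : ℝ) : ‖ex t - 1‖ = 2 * |Real.sin (Real.pi * t)| := by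
  have h1 : ex t = Complex.exp (Complex.I * ((2 * Real.pi * t : ℝ) : ℂ)) := by
    unfold ex
    congr 1
    push_cast
    ring
  rw [h1, Complex.norm_exp_I_mul_ofReal_sub_one,
    show 2 * Real.pi * t / 2 = Real.pi * t by ring, norm_mul, Real.norm_eq_abs, Real.norm_eq_abs,
    abs_of_pos (by norm_num : (0 : ℝ) < 2)]

private theorem continuous_ex_GAL : Continuous ex := by
  unfold ex
  fun_prop

/-- lower bound for the kernel -/
private theorem ker_GAL (h : ℕ) (hh : 1 ≤ h) {β : ℝ} (hβ : |β| ≤ 1 / (2 * h)) :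
    2 * h / Real.pi ≤ ‖∑ j ∈ range h, ex (-((j : ℝ) * β))‖ := by
  have hh0 : (0 : ℝ) < h := by exact_mod_cast hh
  have hpi := Real.pi_pos
  rcases eq_or_ne β 0 with rfl | hβ0
  · have e1 : ∑ j ∈ range h, ex (-((j : ℝ) * 0)) = (h : ℂ) := by
      simp [ex]
    rw [e1, Complex.norm_natCast, div_le_iff₀ hpi]
    nlinarith [Real.pi_gt_three]
  have hβp : 0 < |β| := abs_pos.2 hβ0
  have e1 : ∑ j ∈ range h, ex (-((j : ℝ) * β)) = ∑ j ∈ range h, ex (-β) ^ j := by
    refine sum_congr rfl fun j _ => ?_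
    rw [← ex_pow_GAL]
    congr 1
    ring
  have e2 : (∑ j ∈ range h, ex (-β) ^ j) * (ex (-β) - 1) = ex (-β) ^ h - 1 := geom_sum_mul _ _
  have e3 : ex (-β) ^ h - 1 = ex ((h : ℝ) * (-β)) - 1 := by rw [ex_pow_GAL]
  have e4 : ‖∑ j ∈ range h, ex (-β) ^ j‖ * ‖ex (-β) - 1‖ = ‖ex ((h : ℝ) * (-β)) - 1‖ := by
    rw [← norm_mul, e2, e3]
  have u1 : ‖ex (-β) - 1‖ ≤ 2 * (Real.pi * |β|) := by
    rw [ex_sub_GAL]
    have := Real.abs_sin_le_abs (x := Real.pi * -β)
    rw [abs_mul, abs_neg, abs_of_pos hpi] at this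
    linarith
  have hsmall : |Real.pi * ((h : ℝ) * -β)| ≤ Real.pi / 2 := by
    rw [abs_mul, abs_mul, abs_neg, abs_of_pos hpi, abs_of_pos hh0]
    have h2 : (h : ℝ) * |β| ≤ 1 / 2 := by
      calc (h : ℝ) * |β| ≤ h * (1 / (2 * h)) := mul_le_mul_of_nonneg_left hβ hh0.le
        _ = 1 / 2 := by field_simp
    nlinarith
  have u2 : 4 * ((h : ℝ) * |β|) ≤ ‖ex ((h : ℝ) * (-β)) - 1‖ := by
    rw [ex_sub_GAL]
    have h3 := Real.mul_abs_le_abs_sin hsmall
    rw [abs_mul Real.pi, abs_mul, abs_neg, abs_of_pos hpi, abs_of_pos hh0] at h3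
    have h4 : 2 / Real.pi * (Real.pi * ((h : ℝ) * |β|)) = 2 * (h * |β|) := by
      field_simp
    rw [h4] at h3
    linarith
  rw [e1, div_le_iff₀ hpi]
  have u3 : 4 * ((h : ℝ) * |β|) ≤ ‖∑ j ∈ range h, ex (-β) ^ j‖ * (2 * (Real.pi * |β|)) := by
    calc 4 * ((h : ℝ) * |β|) ≤ ‖∑ j ∈ range h, ex (-β) ^ j‖ * ‖ex (-β) - 1‖ := by rw [e4]; exact u2
      _ ≤ _ := mul_le_mul_of_nonneg_left u1 (norm_nonneg _)
  have u4 : (2 * |β|) * (2 * h) ≤ (2 * |β|) * (‖∑ j ∈ range h, ex (-β) ^ j‖ * Real.pi) := by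
    calc (2 * |β|) * (2 * h) = 4 * ((h : ℝ) * |β|) := by ring
      _ ≤ _ := u3
      _ = _ := by ring
  exact le_of_mul_le_mul_left u4 (by positivity)

/-- orthogonality -/
private theorem orth_GAL (k : ℤ) :
    ∫ β in (-(1 / 2) : ℝ)..(1 / 2), ex ((k : ℝ) * β) = if k = 0 then 1 else 0 := by
  split_ifs with hk
  · subst hk
    have : ∀ β : ℝ, ex (((0 : ℤ) : ℝ) * β) = 1 := by
      intro β
      simp [ex]
    simp only [this]
    rw [intervalIntegral.integral_const]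
    norm_num
  · have hc : (2 * Real.pi * k * Complex.I : ℂ) ≠ 0 := by
      have h1 : (k : ℂ) ≠ 0 := by exact_mod_cast hk
      have h2 : (Real.pi : ℂ) ≠ 0 := by exact_mod_cast Real.pi_ne_zero
      exact mul_ne_zero (mul_ne_zero (mul_ne_zero two_ne_zero h2) h1) Complex.I_ne_zero
    have e1 : ∀ β : ℝ, ex ((k : ℝ) * β) = Complex.exp ((2 * Real.pi * k * Complex.I) * β) := by
      intro β
      unfold ex
      congr 1
      push_cast
      ring
    simp only [e1]
    rw [integral_exp_mul_complex hc]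
    have e2 : Complex.exp ((2 * Real.pi * k * Complex.I) * ((1 / 2 : ℝ) : ℂ)) =
        Complex.exp ((2 * Real.pi * k * Complex.I) * ((-(1 / 2) : ℝ) : ℂ)) := by
      rw [Complex.exp_eq_exp_iff_exists_int]
      refine ⟨k, ?_⟩
      push_cast
      ring
    rw [e2, sub_self, zero_div]

/-- Parseval -/
private theorem pars_GAL (T : Finset ℕ) (w : ℕ → ℂ) :
    ∫ β in (-(1 / 2) : ℝ)..(1 / 2), ‖∑ y ∈ T, w y * ex (((y : ℝ) + 1) * β)‖ ^ 2 =
      ∑ y ∈ T, ‖w y‖ ^ 2 := by
  have hexp : ∀ β : ℝ, ((‖∑ y ∈ T, w y * ex (((y : ℝ) + 1) * β)‖ ^ 2 : ℝ) : ℂ) =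
      ∑ y ∈ T, ∑ z ∈ T, (w y * (starRingEnd ℂ) (w z)) * ex ((((y : ℤ) - z : ℤ) : ℝ) * β) := by
    intro β
    rw [Complex.ofReal_pow, ← Complex.mul_conj', map_sum, Finset.sum_mul_sum]
    refine Finset.sum_congr rfl fun y _ => Finset.sum_congr rfl fun z _ => ?_
    rw [map_mul, ex_conj_GAL,
      show (((y : ℤ) - z : ℤ) : ℝ) * β = ((y : ℝ) + 1) * β + -(((z : ℝ) + 1) * β) by
        push_cast; ring, ex_add_GAL]
    ring
  have hc : ((∫ β in (-(1 / 2) : ℝ)..(1 / 2), ‖∑ y ∈ T, w y * ex (((y : ℝ) + 1) * β)‖ ^ 2 : ℝ) : ℂ) =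
      ((∑ y ∈ T, ‖w y‖ ^ 2 : ℝ) : ℂ) := by
    rw [← intervalIntegral.integral_ofReal]
    simp only [hexp]
    rw [intervalIntegral.integral_finsetSum]
    · rw [Complex.ofReal_sum]
      refine sum_congr rfl fun y hy => ?_
      rw [intervalIntegral.integral_finsetSum]
      · rw [Finset.sum_eq_single y]
        · rw [intervalIntegral.integral_const_mul, orth_GAL, if_pos (sub_self _), mul_one,
            Complex.mul_conj', Complex.ofReal_pow]
        · intro z _ hz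
          rw [intervalIntegral.integral_const_mul, orth_GAL, if_neg, mul_zero]
          intro h0
          apply hz
          omega
        · intro h
          exact absurd hy h
      · intro z _
        exact (Continuous.intervalIntegrable
          (continuous_const.mul (continuous_ex_GAL.comp (continuous_const.mul continuous_id))) _ _)
    · intro y _
      refine Continuous.intervalIntegrable ?_ _ _
      refine continuous_finsetSum _ fun z _ => ?_
      exact continuous_const.mul (continuous_ex_GAL.comp (continuous_const.mul continuous_id))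
  exact_mod_cast hc

/-- the convolution identity -/
private theorem conv_GAL (c : ℕ → ℂ) (a b h : ℕ) (hha : h ≤ a) (β : ℝ) :
    (∑ n ∈ Ioc a b, c n * ex (n * β)) * (∑ j ∈ range h, ex (-((j : ℝ) * β))) =
      ∑ y ∈ Ico (a - h) b, (∑ n ∈ (Ioc y (y + h)).filter (fun n => a < n ∧ n ≤ b), c n) *
        ex (((y : ℝ) + 1) * β) := by
  rw [Finset.sum_mul_sum]
  have e1 : ∑ n ∈ Ioc a b, ∑ j ∈ range h, c n * ex (n * β) * ex (-((j : ℝ) * β)) =
      ∑ p ∈ Ioc a b ×ˢ range h, c p.1 * ex (((p.1 - p.2 - 1 : ℕ) + 1 : ℝ) * β) := by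
    rw [Finset.sum_product]
    refine sum_congr rfl fun n hn => sum_congr rfl fun j hj => ?_
    rw [mem_Ioc] at hn
    rw [mem_range] at hj
    rw [mul_assoc, ← ex_add_GAL]
    congr 2
    have e2 : ((n - j - 1 : ℕ) : ℝ) = (n : ℝ) - j - 1 := by
      rw [Nat.cast_sub (by omega), Nat.cast_sub (by omega)]
      push_cast
      ring
    simp only [e2]
    ring
  have e3 : ∑ y ∈ Ico (a - h) b, (∑ n ∈ (Ioc y (y + h)).filter (fun n => a < n ∧ n ≤ b), c n) *
        ex (((y : ℝ) + 1) * β) =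
      ∑ p ∈ (Ico (a - h) b).sigma (fun y => (Ioc y (y + h)).filter (fun n => a < n ∧ n ≤ b)),
        c p.2 * ex (((p.1 : ℝ) + 1) * β) := by
    rw [Finset.sum_sigma]
    refine sum_congr rfl fun y _ => ?_
    rw [sum_mul]
  rw [e1, e3]
  refine Finset.sum_bij' (fun p _ => (⟨p.1 - p.2 - 1, p.1⟩ : (_ : ℕ) × ℕ))
    (fun p _ => (p.2, p.2 - p.1 - 1)) ?_ ?_ ?_ ?_ ?_
  · rintro ⟨n, j⟩ hp
    rw [mem_product, mem_Ioc, mem_range] at hp
    rw [mem_sigma, mem_Ico, mem_filter, mem_Ioc]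
    simp only at hp ⊢
    omega
  · rintro ⟨y, n⟩ hp
    rw [mem_sigma, mem_Ico, mem_filter, mem_Ioc] at hp
    rw [mem_product, mem_Ioc, mem_range]
    simp only at hp ⊢
    omega
  · rintro ⟨n, j⟩ hp
    rw [mem_product, mem_Ioc, mem_range] at hp
    simp only at hp ⊢
    rw [Prod.mk.injEq]
    refine ⟨rfl, ?_⟩
    omega
  · rintro ⟨y, n⟩ hp
    rw [mem_sigma, mem_Ico, mem_filter, mem_Ioc] at hp
    simp only at hp ⊢
    have : n - (n - y - 1) - 1 = y := by omega
    rw [this]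
  · rintro ⟨n, j⟩ hp
    rfl

theorem hGal : StGal := by
  intro c a b h B hh hha hab hB hBh
  have hh0 : (0 : ℝ) < h := by exact_mod_cast hh
  have hpi := Real.pi_pos
  set w : ℕ → ℂ := fun y => ∑ n ∈ (Ioc y (y + h)).filter (fun n => a < n ∧ n ≤ b), c n with hw
  set F : ℝ → ℂ := fun β => ∑ n ∈ Ioc a b, c n * ex (n * β) with hF
  set G : ℝ → ℂ := fun β => ∑ y ∈ Ico (a - h) b, w y * ex (((y : ℝ) + 1) * β) with hG
  have hFc : Continuous F := by
    rw [hF]
    refine continuous_finsetSum _ fun z _ => ?_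
    exact continuous_const.mul (continuous_ex_GAL.comp (continuous_const.mul continuous_id))
  have hGc : Continuous G := by
    rw [hG]
    refine continuous_finsetSum _ fun z _ => ?_
    exact continuous_const.mul (continuous_ex_GAL.comp (continuous_const.mul continuous_id))
  have hpt : ∀ β ∈ Set.Icc (-B) B, ‖F β‖ ^ 2 ≤ Real.pi ^ 2 / (4 * (h : ℝ) ^ 2) * ‖G β‖ ^ 2 := by
    intro β hβ
    have h1 := ker_GAL h hh (β := β) ((abs_le.2 hβ).trans hBh)
    have h2 := conv_GAL c a b h hha β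
    have h3 : ‖F β‖ * ‖∑ j ∈ range h, ex (-((j : ℝ) * β))‖ = ‖G β‖ := by
      rw [← norm_mul, h2]
    have h4 : ‖F β‖ * (2 * h / Real.pi) ≤ ‖G β‖ := by
      rw [← h3]
      exact mul_le_mul_of_nonneg_left h1 (norm_nonneg _)
    have h5 : (‖F β‖ * (2 * h / Real.pi)) ^ 2 ≤ ‖G β‖ ^ 2 :=
      pow_le_pow_left₀ (by positivity) h4 2
    calc ‖F β‖ ^ 2 = Real.pi ^ 2 / (4 * (h : ℝ) ^ 2) * (‖F β‖ * (2 * h / Real.pi)) ^ 2 := by
          field_simp
          ring
      _ ≤ _ := mul_le_mul_of_nonneg_left h5 (by positivity)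
  have hB2 : B ≤ 1 / 2 := by
    refine hBh.trans ?_
    have : (1 : ℝ) ≤ h := by exact_mod_cast hh
    rw [div_le_div_iff₀ (by positivity) (by norm_num)]
    linarith
  calc ∫ β in (-B)..B, ‖F β‖ ^ 2
      ≤ ∫ β in (-B)..B, Real.pi ^ 2 / (4 * (h : ℝ) ^ 2) * ‖G β‖ ^ 2 := by
        refine intervalIntegral.integral_mono_on (by linarith) ?_ ?_ hpt
        · exact (hFc.norm.pow 2).intervalIntegrable _ _
        · exact (continuous_const.mul (hGc.norm.pow 2)).intervalIntegrable _ _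
    _ = Real.pi ^ 2 / (4 * (h : ℝ) ^ 2) * ∫ β in (-B)..B, ‖G β‖ ^ 2 := by
        rw [intervalIntegral.integral_const_mul]
    _ ≤ Real.pi ^ 2 / (4 * (h : ℝ) ^ 2) * ∫ β in (-(1 / 2) : ℝ)..(1 / 2), ‖G β‖ ^ 2 := by
        refine mul_le_mul_of_nonneg_left ?_ (by positivity)
        refine intervalIntegral.integral_mono_interval (by linarith) (by linarith) hB2 ?_ ?_
        · exact Filter.Eventually.of_forall fun β => by positivity
        · exact (hGc.norm.pow 2).intervalIntegrable _ _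
    _ = _ := by rw [hG, pars_GAL]

end Pool.Agent.Helper88.MV
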