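import Pool.Agent.Helper23.MV.StL

set_option autoImplicit false

namespace Pool.Agent.Helper88.MV

open Finset
open Pool.Agent.Helper23.MV

private theorem lcs_harm {z : ℝ} (hz : 1 ≤ z) :
    ∑ m ∈ Icc 1 ⌊z⌋₊, (1 : ℝ) / m ≤ 1 + Real.log z := by
  have h1 := harmonic_le_one_add_log ⌊z⌋₊
  rw [harmonic_eq_sum_Icc] at h1
  push_cast at h1
  have h2 : Real.log (⌊z⌋₊ : ℝ) ≤ Real.log z := by
    have hf : 1 ≤ ⌊z⌋₊ := Nat.le_floor (by simpa using hz)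
    exact Real.log_le_log (by exact_mod_cast hf) (Nat.floor_le (by linarith))
  simp only [one_div]
  linarith

private theorem lcs_mult (N g : ℕ) (hg : 1 ≤ g) :
    ∑ d ∈ (Icc 1 N).filter (fun d => g ∣ d), (1 : ℝ) / d ≤
      1 / g * ∑ m ∈ Icc 1 N, (1 : ℝ) / m := by
  have hsub : (Icc 1 N).filter (fun d => g ∣ d) ⊆ (Icc 1 N).image (fun m => g * m) := by
    intro d hd
    rw [mem_filter, mem_Icc] at hd
    obtain ⟨⟨h1, h2⟩, m, rfl⟩ := hd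
    rw [mem_image]
    refine ⟨m, mem_Icc.2 ⟨?_, ?_⟩, rfl⟩
    · exact Nat.pos_of_mul_pos_left (a := g) h1 |> fun h => h
    · exact (Nat.le_mul_of_pos_left m hg).trans h2
  have h1 : ∑ d ∈ (Icc 1 N).filter (fun d => g ∣ d), (1 : ℝ) / d ≤
      ∑ d ∈ (Icc 1 N).image (fun m => g * m), (1 : ℝ) / d :=
    sum_le_sum_of_subset_of_nonneg hsub fun _ _ _ => by positivity
  refine h1.trans (le_of_eq ?_)
  rw [sum_image, mul_sum]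
  · refine sum_congr rfl fun m _ => ?_
    push_cast
    rw [one_div_mul_one_div]
  · intro a _ b _ hab
    exact Nat.eq_of_mul_eq_mul_left hg hab

private theorem lcs_main {z w : ℝ} (hz : 1 ≤ z) (hw : 1 ≤ w) :
    ∑ d₁ ∈ Icc 1 ⌊z⌋₊, ∑ d₂ ∈ Icc 1 ⌊w⌋₊, (1 : ℝ) / (Nat.lcm d₁ d₂ : ℝ) ≤
      (1 + Real.log z) * (1 + Real.log w) * (1 + Real.log (min z w)) := by
  have hlz : 0 ≤ Real.log z := Real.log_nonneg hz
  have hlw : 0 ≤ Real.log w := Real.log_nonneg hw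
  have key : ∀ d₁ ∈ Icc 1 ⌊z⌋₊, ∀ d₂ ∈ Icc 1 ⌊w⌋₊, (1 : ℝ) / (Nat.lcm d₁ d₂ : ℝ) =
      ∑ g ∈ Icc 1 ⌊min z w⌋₊, (g.totient : ℝ) * ((if g ∣ d₁ then (1 : ℝ) / d₁ else 0) *
        (if g ∣ d₂ then (1 : ℝ) / d₂ else 0)) := by
    intro d₁ h₁ d₂ h₂
    rw [mem_Icc] at h₁ h₂
    have hd1 : (0 : ℝ) < d₁ := by exact_mod_cast h₁.1
    have hd2 : (0 : ℝ) < d₂ := by exact_mod_cast h₂.1
    have hG : 0 < Nat.gcd d₁ d₂ := Nat.gcd_pos_of_pos_left _ h₁.1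
    have e1 : (Nat.gcd d₁ d₂ : ℝ) * (Nat.lcm d₁ d₂ : ℝ) = d₁ * d₂ := by
      exact_mod_cast Nat.gcd_mul_lcm d₁ d₂
    have e2 : (1 : ℝ) / (Nat.lcm d₁ d₂ : ℝ) = (Nat.gcd d₁ d₂ : ℝ) * (1 / d₁ * (1 / d₂)) := by
      have hL : (0 : ℝ) < Nat.lcm d₁ d₂ := by exact_mod_cast Nat.lcm_pos h₁.1 h₂.1
      field_simp
      linarith
    have e3 : (Nat.gcd d₁ d₂ : ℝ) = ∑ g ∈ (Nat.gcd d₁ d₂).divisors, (g.totient : ℝ) := by
      exact_mod_cast (Nat.sum_totient (Nat.gcd d₁ d₂)).symm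
    rw [e2, e3, sum_mul]
    have hfl : ⌊min z w⌋₊ = min ⌊z⌋₊ ⌊w⌋₊ := by
      rcases le_total z w with h | h
      · rw [min_eq_left h, min_eq_left (Nat.floor_le_floor h)]
      · rw [min_eq_right h, min_eq_right (Nat.floor_le_floor h)]
    have hsub : (Nat.gcd d₁ d₂).divisors ⊆ Icc 1 ⌊min z w⌋₊ := by
      intro g hg
      rw [Nat.mem_divisors] at hg
      have g1 : g ∣ d₁ := hg.1.trans (Nat.gcd_dvd_left _ _)
      have g2 : g ∣ d₂ := hg.1.trans (Nat.gcd_dvd_right _ _)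
      have hg0 : 0 < g := Nat.pos_of_dvd_of_pos hg.1 hG
      rw [mem_Icc, hfl]
      exact ⟨hg0, le_min ((Nat.le_of_dvd h₁.1 g1).trans h₁.2) ((Nat.le_of_dvd h₂.1 g2).trans h₂.2)⟩
    rw [← sum_subset hsub]
    · refine sum_congr rfl fun g hg => ?_
      rw [Nat.mem_divisors] at hg
      rw [if_pos (hg.1.trans (Nat.gcd_dvd_left _ _)), if_pos (hg.1.trans (Nat.gcd_dvd_right _ _))]
    · intro g _ hg
      by_cases a1 : g ∣ d₁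
      · by_cases a2 : g ∣ d₂
        · exact absurd (Nat.mem_divisors.2 ⟨Nat.dvd_gcd a1 a2, hG.ne'⟩) hg
        · rw [if_neg a2, mul_zero, mul_zero]
      · rw [if_neg a1, zero_mul, mul_zero]
  rw [sum_congr rfl fun d₁ h₁ => sum_congr rfl fun d₂ h₂ => key d₁ h₁ d₂ h₂]
  have sw : ∑ d₁ ∈ Icc 1 ⌊z⌋₊, ∑ d₂ ∈ Icc 1 ⌊w⌋₊, ∑ g ∈ Icc 1 ⌊min z w⌋₊,
      (g.totient : ℝ) * ((if g ∣ d₁ then (1 : ℝ) / d₁ else 0) *
        (if g ∣ d₂ then (1 : ℝ) / d₂ else 0)) =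
      ∑ g ∈ Icc 1 ⌊min z w⌋₊, (g.totient : ℝ) *
        ((∑ d₁ ∈ Icc 1 ⌊z⌋₊, if g ∣ d₁ then (1 : ℝ) / d₁ else 0) *
        (∑ d₂ ∈ Icc 1 ⌊w⌋₊, if g ∣ d₂ then (1 : ℝ) / d₂ else 0)) := by
    rw [sum_congr rfl fun d₁ _ => sum_comm, sum_comm]
    refine sum_congr rfl fun g _ => ?_
    rw [sum_mul_sum, mul_sum]
    refine sum_congr rfl fun d₁ _ => ?_
    rw [mul_sum]
  rw [sw]
  have hb : ∀ g ∈ Icc 1 ⌊min z w⌋₊, (g.totient : ℝ) *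
        ((∑ d₁ ∈ Icc 1 ⌊z⌋₊, if g ∣ d₁ then (1 : ℝ) / d₁ else 0) *
        (∑ d₂ ∈ Icc 1 ⌊w⌋₊, if g ∣ d₂ then (1 : ℝ) / d₂ else 0)) ≤
      ((1 + Real.log z) * (1 + Real.log w)) * (1 / g) := by
    intro g hg
    rw [mem_Icc] at hg
    have hg0 : (0 : ℝ) < g := by exact_mod_cast hg.1
    rw [← sum_filter, ← sum_filter]
    have b1 : ∑ d ∈ (Icc 1 ⌊z⌋₊).filter (fun d => g ∣ d), (1 : ℝ) / d ≤ 1 / g * (1 + Real.log z) :=
      (lcs_mult _ g hg.1).trans (mul_le_mul_of_nonneg_left (lcs_harm hz) (by positivity))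
    have b2 : ∑ d ∈ (Icc 1 ⌊w⌋₊).filter (fun d => g ∣ d), (1 : ℝ) / d ≤ 1 / g * (1 + Real.log w) :=
      (lcs_mult _ g hg.1).trans (mul_le_mul_of_nonneg_left (lcs_harm hw) (by positivity))
    have b3 : (g.totient : ℝ) ≤ g := by exact_mod_cast Nat.totient_le g
    calc (g.totient : ℝ) * ((∑ d ∈ (Icc 1 ⌊z⌋₊).filter (fun d => g ∣ d), (1 : ℝ) / d) *
          (∑ d ∈ (Icc 1 ⌊w⌋₊).filter (fun d => g ∣ d), (1 : ℝ) / d))
        ≤ g * ((1 / g * (1 + Real.log z)) * (1 / g * (1 + Real.log w))) := by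
          refine mul_le_mul b3 ?_ ?_ hg0.le
          · exact mul_le_mul b1 b2 (sum_nonneg fun _ _ => by positivity) (by positivity)
          · exact mul_nonneg (sum_nonneg fun _ _ => by positivity)
              (sum_nonneg fun _ _ => by positivity)
      _ = _ := by field_simp
  refine (sum_le_sum hb).trans ?_
  rw [← mul_sum]
  exact mul_le_mul_of_nonneg_left (lcs_harm (le_min hz hw)) (by positivity)

theorem hLcs : StLcs := by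
  intro z σ w hz hw hσ
  have h1 : ∑ d₁ ∈ Icc 1 ⌊z⌋₊, ∑ d₂ ∈ Icc 1 ⌊w⌋₊, (Nat.lcm d₁ d₂ : ℝ) ^ (-σ) ≤
      ∑ d₁ ∈ Icc 1 ⌊z⌋₊, ∑ d₂ ∈ Icc 1 ⌊w⌋₊, (z * w) ^ (1 - σ) * ((1 : ℝ) / (Nat.lcm d₁ d₂ : ℝ)) := by
    refine sum_le_sum fun d₁ h₁ => sum_le_sum fun d₂ h₂ => ?_
    rw [mem_Icc] at h₁ h₂
    have hL : (0 : ℝ) < Nat.lcm d₁ d₂ := by exact_mod_cast Nat.lcm_pos h₁.1 h₂.1
    have hLe : (Nat.lcm d₁ d₂ : ℝ) ≤ z * w := by
      have e1 : (Nat.lcm d₁ d₂ : ℝ) ≤ (d₁ : ℝ) * d₂ := by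
        exact_mod_cast Nat.le_of_dvd (Nat.mul_pos h₁.1 h₂.1) (Nat.lcm_dvd_mul d₁ d₂)
      have e2 : (d₁ : ℝ) ≤ z := (Nat.cast_le.2 h₁.2).trans (Nat.floor_le (by linarith))
      have e3 : (d₂ : ℝ) ≤ w := (Nat.cast_le.2 h₂.2).trans (Nat.floor_le (by linarith))
      exact e1.trans (mul_le_mul e2 e3 (by positivity) (by linarith))
    have e4 : (Nat.lcm d₁ d₂ : ℝ) ^ (-σ) =
        (Nat.lcm d₁ d₂ : ℝ) ^ (1 - σ) * ((1 : ℝ) / (Nat.lcm d₁ d₂ : ℝ)) := by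
      rw [show -σ = (1 - σ) - 1 by ring, Real.rpow_sub_one hL.ne', div_eq_mul_one_div]
    rw [e4]
    exact mul_le_mul_of_nonneg_right (Real.rpow_le_rpow hL.le hLe (by linarith)) (by positivity)
  refine h1.trans ?_
  simp only [← mul_sum]
  have h2 := lcs_main hz hw
  have h3 : 0 ≤ (z * w) ^ (1 - σ) := Real.rpow_nonneg (by positivity) _
  calc _ ≤ (z * w) ^ (1 - σ) * ((1 + Real.log z) * (1 + Real.log w) * (1 + Real.log (min z w))) :=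
        mul_le_mul_of_nonneg_left h2 h3
    _ = _ := by ring

end Pool.Agent.Helper88.MV
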