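import Pool.Agent.Helper23.MV.StP
import Pool.Agent.Helper90.MT.A4

set_option autoImplicit false

namespace Pool.Agent.Helper88.MV

open Finset MeasureTheory Filter Topology
open Pool.Agent.Helper23.MV
open Pool.Agent.Helper90.MT

theorem hPid : StPid := by
  intro f σ x hσ hx hf0 hf
  have hx0 : 0 < x := by linarith
  have hxc : (x : ℂ) ≠ 0 := by exact_mod_cast hx0.ne'
  set s : ℝ → ℂ := fun ξ => (σ : ℂ) + (2 * Real.pi * ξ : ℝ) * Complex.I with hs
  have hsre : ∀ ξ, (s ξ).re = σ := fun ξ => by simp [hs]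
  have hscont : Continuous s := by rw [hs]; fun_prop
  have hs0 : ∀ ξ, s ξ ≠ 0 := fun ξ => A4.s_ne hσ _
  set F : ℕ → ℝ → ℂ := fun n ξ =>
    f n * (n : ℂ) ^ (-(s ξ)) * (x : ℂ) ^ (s ξ) * (1 / (s ξ) ^ 2) with hF
  have hnorm : ∀ n ξ, ‖F n ξ‖ = ‖f n‖ * (n : ℝ) ^ (-σ) * x ^ σ * ‖1 / (s ξ) ^ 2‖ := by
    intro n ξ
    rcases Nat.eq_zero_or_pos n with rfl | hn
    · simp [hF, hf0]
    · rw [hF]
      simp only
      rw [norm_mul, norm_mul, norm_mul, Complex.norm_natCast_cpow_of_pos hn,
        Complex.norm_cpow_eq_rpow_re_of_pos hx0, Complex.neg_re, hsre]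
  have hFform : ∀ n, n ≠ 0 → F n = fun ξ => f n * (Complex.exp ((Real.log (x / n) : ℝ) * s ξ) *
      (1 / (s ξ) ^ 2)) := by
    intro n hn
    funext ξ
    have hn0 : (n : ℂ) ≠ 0 := Nat.cast_ne_zero.2 hn
    have hn1 : (n : ℝ) ≠ 0 := Nat.cast_ne_zero.2 hn
    rw [hF]
    simp only
    rw [Real.log_div hx0.ne' hn1, Complex.ofReal_sub, sub_mul, Complex.exp_sub,
      Complex.cpow_neg, Complex.cpow_def_of_ne_zero hn0, Complex.cpow_def_of_ne_zero hxc,
      Complex.ofReal_log (Nat.cast_nonneg n), Complex.ofReal_natCast, Complex.ofReal_log hx0.le]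
    ring
  have hFint : ∀ n, Integrable (F n) := by
    intro n
    by_cases hn : n = 0
    · have : F n = fun _ => 0 := by
        funext ξ
        rw [hF, hn]
        simp [hf0]
      rw [this]
      exact integrable_zero _ _ _
    · have hb : Integrable (fun ξ : ℝ => ‖f n‖ * (n : ℝ) ^ (-σ) * x ^ σ * ‖1 / (s ξ) ^ 2‖) :=
        (A4.integrable_inv hσ).norm.const_mul _
      refine Integrable.mono' hb ?_ (Eventually.of_forall fun ξ => (hnorm n ξ).le)
      rw [hFform n hn]
      refine Continuous.aestronglyMeasurable ?_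
      refine continuous_const.mul (Continuous.mul (by fun_prop) ?_)
      exact A4.continuous_inv hσ
  have hFval : ∀ n, ∫ ξ, F n ξ = f n * ((max (Real.log (x / n)) 0 : ℝ) : ℂ) := by
    intro n
    by_cases hn : n = 0
    · have h0 : F n = fun _ => 0 := by
        funext ξ
        rw [hF, hn]
        simp [hf0]
      rw [h0, integral_zero, hn, hf0, zero_mul]
    · rw [hFform n hn, integral_const_mul, ← A4.perron hσ]
  have hFsum : Summable fun n => ∫ ξ, ‖F n ξ‖ := by
    have h1 : (fun n => ∫ ξ, ‖F n ξ‖) = fun n : ℕ => ‖f n‖ * (n : ℝ) ^ (-σ) *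
        (x ^ σ * ∫ ξ, ‖1 / (s ξ) ^ 2‖) := by
      funext n
      simp only [hnorm]
      rw [integral_const_mul]
      ring
    rw [h1]
    exact hf.mul_right _
  have hmain := hasSum_integral_of_summable_integral_norm hFint hFsum
  set G : ℝ → ℂ := fun y => (∑' n : ℕ, f n * (n : ℂ) ^ (-(σ + y * Complex.I : ℂ))) *
      (x : ℂ) ^ (σ + y * Complex.I : ℂ) / (σ + y * Complex.I : ℂ) ^ 2 with hGdef
  have hG : ∀ ξ, ∑' n, F n ξ = G (2 * Real.pi * ξ) := by
    intro ξ
    rw [hF, hGdef]
    simp only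
    rw [tsum_mul_right, tsum_mul_right, mul_one_div]
  have hsum : ∑ n ∈ Ioc 0 ⌊x⌋₊, f n * ((Real.log (x / n) : ℝ) : ℂ) =
      ∫ ξ, G (2 * Real.pi * ξ) := by
    have h1 := hmain.tsum_eq
    simp only [hG, hFval] at h1
    rw [← h1, tsum_eq_sum (s := Ioc 0 ⌊x⌋₊)]
    · refine sum_congr rfl fun n hn => ?_
      rw [Finset.mem_Ioc] at hn
      have hn1 : (1 : ℝ) ≤ n := by exact_mod_cast hn.1
      have hnx : (n : ℝ) ≤ x := (Nat.cast_le.2 hn.2).trans (Nat.floor_le hx0.le)
      rw [max_eq_left]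
      exact Real.log_nonneg ((one_le_div (by linarith)).2 hnx)
    · intro n hn
      rw [Finset.mem_Ioc, not_and_or, not_lt, not_le] at hn
      rcases hn with hn | hn
      · have : n = 0 := by omega
        rw [this, hf0, zero_mul]
      · have h2 : x < n := (Nat.floor_lt hx0.le).1 hn
        have h3 : Real.log (x / n) ≤ 0 := by
          refine Real.log_nonpos (by positivity) ?_
          rw [div_le_one (by linarith)]
          exact h2.le
        rw [max_eq_right h3]
        simp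
  rw [hsum, Measure.integral_comp_mul_left G (2 * Real.pi)]
  rw [abs_of_pos (by positivity), Complex.real_smul]
  congr 1
  push_cast
  rw [one_div]

end Pool.Agent.Helper88.MV
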