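import Pool.Agent.Helper23.MV.StE
import Pool.Agent.Helper22.GK.M_TFO

set_option autoImplicit false

namespace Pool.Agent.Helper88.MV

open Pool.Agent.Helper23.MV
open Pool.Agent.Helper22.GK
open scoped ArithmeticFunction.vonMangoldt

/-- `Re(L'/L(σ+it,ψ)) ≤ -ζ'/ζ(σ)` -/
private theorem zct_cmp {q : ℕ} [NeZero q] (ψ : DirichletCharacter ℂ q) (σ t : ℝ) (hσ : 1 < σ) :
    -(-(deriv (DirichletCharacter.LFunction ψ) (σ + t * Complex.I) /
        DirichletCharacter.LFunction ψ (σ + t * Complex.I))).re ≤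
      (-(deriv (DirichletCharacter.LFunction (1 : DirichletCharacter ℂ 1)) σ /
        DirichletCharacter.LFunction (1 : DirichletCharacter ℂ 1) σ)).re := by
  have hr : 1 < ((σ : ℂ) + t * Complex.I).re := by simpa using hσ
  have hr' : 1 < ((σ : ℝ) : ℂ).re := by simpa using hσ
  have h1 := tfo_re ψ hr
  have h2 := tfo_re (1 : DirichletCharacter ℂ 1) hr'
  rw [h1.1, h2.1, ← tsum_neg]
  refine Summable.tsum_le_tsum (fun n => ?_) h1.2.neg h2.2
  rcases eq_or_ne n 0 with rfl | hn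
  · simp
  have hc : 0 ≤ Λ n * (n : ℝ) ^ (-σ) :=
    mul_nonneg ArithmeticFunction.vonMangoldt_nonneg (Real.rpow_nonneg (Nat.cast_nonneg n) _)
  rw [tfo_term ψ σ t hn, tfo_term0 _ σ hn, Complex.re_ofReal_mul, Complex.re_ofReal_mul]
  have h4 : (1 : DirichletCharacter ℂ 1) (n : ZMod 1) = 1 :=
    MulChar.one_apply (isUnit_of_subsingleton _)
  rw [h4, Complex.one_re, ← mul_neg]
  refine mul_le_mul_of_nonneg_left ?_ hc
  have hw : ‖Complex.exp (-(t * Real.log n * Complex.I))‖ = 1 := by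
    have : (-(t * Real.log n * Complex.I) : ℂ) = ((-(t * Real.log n) : ℝ) : ℂ) * Complex.I := by
      push_cast; ring
    rw [this, Complex.norm_exp_ofReal_mul_I]
  have h5 : ‖ψ (n : ZMod q) * Complex.exp (-(t * Real.log n * Complex.I))‖ ≤ 1 := by
    rw [norm_mul, hw, mul_one]
    exact ψ.norm_le_one _
  have h6 := Complex.abs_re_le_norm (ψ (n : ZMod q) * Complex.exp (-(t * Real.log n * Complex.I)))
  have h7 := neg_abs_le (ψ (n : ZMod q) * Complex.exp (-(t * Real.log n * Complex.I))).re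
  linarith

/-- `Re 1/(s-ρ) ≥ 1/(4u)` -/
private theorem zct_re {u : ℝ} (hu : 0 < u) {z : ℂ} (h1 : u ≤ z.re) (h2 : ‖z‖ ≤ 2 * u) :
    1 / (4 * u) ≤ (1 / z).re := by
  have hz : z ≠ 0 := by
    rintro rfl
    simp at h1
    linarith
  have hn : 0 < Complex.normSq z := Complex.normSq_pos.2 hz
  rw [one_div z, Complex.inv_re, div_le_div_iff₀ (by positivity) hn]
  have h3 : Complex.normSq z ≤ (2 * u) ^ 2 := by
    rw [← Complex.sq_norm]
    exact pow_le_pow_left₀ (norm_nonneg _) h2 2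
  nlinarith

theorem hZct : StLdr → StZct := by
  rintro ⟨A, hA, hL⟩
  obtain ⟨c, X0, hc, hc8, hX0, H⟩ := hL 1 one_pos le_rfl
  obtain ⟨C, hC, HC⟩ := tfo_two
  refine ⟨4 * A + 4 + 4 * C, c / 2, X0, by linarith, by linarith, by linarith, hX0, ?_⟩
  intro X e t u S hX hr ht hχ hu huc hS
  have hX2 : 2 ≤ X := hX0.trans hX
  have hlog : 0 < Real.log X := Real.log_pos (by linarith)
  have hu0 : 0 < u := lt_of_lt_of_le (by positivity) hu
  have hrc : (e.r : ℝ) ≤ X ^ c :=
    hr.trans (Real.rpow_le_rpow_of_exponent_le (by linarith) (by linarith))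
  have hdist : ∀ ρ ∈ S, ‖ρ - (((1 + u : ℝ) : ℂ) + t * Complex.I)‖ ≤ 2 * u := by
    intro ρ hρ
    have h1 := (hS ρ hρ).2
    have e1 : ρ - (((1 + u : ℝ) : ℂ) + t * Complex.I) = (ρ - (1 + t * Complex.I)) - (u : ℂ) := by
      push_cast; ring
    rw [e1]
    refine (norm_sub_le _ _).trans ?_
    rw [Complex.norm_real, Real.norm_of_nonneg hu0.le]
    linarith
  have hre : ∀ ρ ∈ S, 1 / (4 * u) ≤ (1 / ((((1 + u : ℝ) : ℂ) + t * Complex.I) - ρ)).re := by
    intro ρ hρ
    have h0 := hS ρ hρ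
    refine zct_re hu0 ?_ ?_
    · have hlt : ρ.re < 1 := by
        by_contra hge
        have hge : 1 ≤ ρ.re := not_lt.1 hge
        refine DirichletCharacter.LFunction_ne_zero_of_one_le_re e.χ ?_ hge h0.1
        by_cases h1 : e.χ = 1
        · refine Or.inr ?_
          rintro rfl
          have h2 := hχ h1
          have h3 : ‖(1 : ℂ) - (1 + t * Complex.I)‖ = |t| := by
            rw [show (1 : ℂ) - (1 + t * Complex.I) = -(t * Complex.I) by ring, norm_neg, norm_mul,
              Complex.norm_I, mul_one, Complex.norm_real, Real.norm_eq_abs]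
          have h4 := h0.2
          rw [h3] at h4
          linarith
        · exact Or.inl h1
      simp only [Complex.sub_re, Complex.add_re, Complex.ofReal_re, Complex.mul_re, Complex.I_re,
        Complex.ofReal_im, Complex.I_im, mul_zero, mul_one, sub_self, add_zero]
      linarith
    · rw [norm_sub_rev]
      exact hdist ρ hρ
  have h1 := H X e.r e.χ (1 + u) t S hX hrc (by linarith) (by linarith) ht hχ
    (fun ρ hρ => ⟨(hS ρ hρ).1, (hdist ρ hρ).trans (by linarith)⟩)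
  have h2 := zct_cmp e.χ (1 + u) t (by linarith)
  have h3 := HC 1 (1 + u) (by linarith) (by linarith)
  have h4 : ∑ ρ ∈ S, (mz e ρ : ℝ) * (1 / (4 * u)) ≤
      ∑ ρ ∈ S, (analyticOrderNatAt (DirichletCharacter.LFunction e.χ) ρ : ℝ) *
        (1 / ((((1 + u : ℝ) : ℂ) + t * Complex.I) - ρ)).re := by
    refine Finset.sum_le_sum fun ρ hρ => ?_
    exact mul_le_mul_of_nonneg_left (hre ρ hρ) (Nat.cast_nonneg _)
  rw [← Finset.sum_mul] at h4
  have h5 : (1 + u - 1 : ℝ) = u := by ring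
  rw [h5] at h3
  have h6 : (∑ ρ ∈ S, (mz e ρ : ℝ)) * (1 / (4 * u)) ≤ A * Real.log X + (1 / u + C) := by
    linarith
  have h7 : (∑ ρ ∈ S, (mz e ρ : ℝ)) ≤ (A * Real.log X + (1 / u + C)) * (4 * u) := by
    have := mul_le_mul_of_nonneg_right h6 (show (0 : ℝ) ≤ 4 * u by positivity)
    have e2 : (∑ ρ ∈ S, (mz e ρ : ℝ)) * (1 / (4 * u)) * (4 * u) = ∑ ρ ∈ S, (mz e ρ : ℝ) := by
      field_simp
    rwa [e2] at this
  have h8 : (A * Real.log X + (1 / u + C)) * (4 * u) = 4 * A * (u * Real.log X) + 4 + 4 * C * u := by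
    field_simp
    ring
  rw [h8] at h7
  have h9 : 0 ≤ u * Real.log X := by positivity
  have h10 : 4 * C * u ≤ 4 * C := by
    have : u ≤ 1 := by linarith
    nlinarith
  nlinarith [mul_nonneg hC.le h9]

end Pool.Agent.Helper88.MV
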